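import Pool.Agent.W347.WH.RecA

/-!
# Project WHH (helper680), part REC (helper347)
-/

set_option autoImplicit false

open scoped ComplexConjugate InnerProductSpace
open ContinuousLinearMap Filter

namespace Pool.Agent.W347.WH

open Pool.Agent.W680.WH

/-- `β n` -/
noncomputable def bt (n : ℤ) : ℝ := (4 * (n : ℝ) + 1) / (4 * (n : ℝ) + 3)

theorem d1 (n : ℤ) : (4 * (n : ℝ) + 1) ≠ 0 := by
  intro h
  have h1 : (4 * n + 1 : ℤ) = 0 := by exact_mod_cast h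
  omega

theorem d3 (n : ℤ) : (4 * (n : ℝ) + 3) ≠ 0 := by
  intro h
  have h1 : (4 * n + 3 : ℤ) = 0 := by exact_mod_cast h
  omega

theorem bt_ne (n : ℤ) : bt n ≠ 0 := div_ne_zero (d1 n) (d3 n)

theorem bt_inj {n m : ℤ} (h : bt n = bt m) : n = m := by
  unfold bt at h
  rw [div_eq_div_iff (d3 n) (d3 m)] at h
  have h1 : (n : ℝ) = m := by linarith
  exact_mod_cast h1

theorem bt_neg (n : ℤ) : bt n * bt (-n - 1) = 1 := by
  unfold bt
  have h1 := d1 n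
  have h3 := d3 n
  push_cast
  have e1 : 4 * (-(n : ℝ) - 1) + 1 = -(4 * (n : ℝ) + 3) := by ring
  have e2 : 4 * (-(n : ℝ) - 1) + 3 = -(4 * (n : ℝ) + 1) := by ring
  rw [e1, e2, neg_div_neg_eq]
  field_simp

theorem om_bt (n : ℤ) : bt n * om (n + 1) = om n := by
  rw [om_succ]
  unfold bt
  have h1 := d1 n
  have h3 := d3 n
  field_simp

section
variable {r : ℝ}

theorem pp (hOPA : S_OPA) (f : E) : Z (Q f) = Q (Z f) + (2 : ℂ) • Q (Q f) := by
  have h := hOPA.2.2.2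
  have h1 := congrArg (fun A : E →L[ℂ] E => A f) h
  have h2 : Z2 (Z f) - Z (Z2 f) = (2 : ℂ) • Q (Q f) := h1
  have h3 : Z (Q f) = Z (Z f) - Z (Z2 f) := by
    have : Q f = Z f - Z2 f := rfl
    rw [this, map_sub]
  have h4 : Q (Z f) = Z (Z f) - Z2 (Z f) := rfl
  rw [h3, h4, ← h2]
  abel

/-- the sequence of vectors -/
theorem seq (hOM : S_OM) (hOPA : S_OPA) (hOPC : S_OPC) (hOPJ : S_OPJ) (hINV : S_INV)
    (h : E) (hr0 : 0 ≤ r) (hr1 : r < 1)
    (hP : ((1 - r ^ 2 : ℝ) : ℂ) • Q h =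
      (2 / 3 : ℂ) • (((1 : E →L[ℂ] E) + (r : ℂ) • Z2) ((Z + (r : ℂ) • (1 : E →L[ℂ] E)) h)))
    (hj : jj (h + (r : ℂ) • Z h) = h + (r : ℂ) • Z h) :
    ∃ g : ℤ → E, g 0 = h + (r : ℂ) • Z h ∧
      (∀ n, g (n + 1) + (r : ℂ) • Z (g (n + 1)) = Z (g n) + (r : ℂ) • g n) ∧
      (∀ n, (bt n : ℂ) • (g (n + 1) + (r : ℂ) • Z2 (g (n + 1))) = Z2 (g n) + (r : ℂ) • g n) := by
  have hOPA' := hOPA
  obtain ⟨⟨z1, z2, z3, z4⟩, -, -, -⟩ := hOPA
  obtain ⟨j1, j2, j3, j4, -, j6, j7, j8, -⟩ := hOPJ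
  have ha : ‖(-(r : ℂ))‖ < 1 := by
    rw [norm_neg, Complex.norm_real, Real.norm_of_nonneg hr0]; exact hr1
  obtain ⟨⟨uc, huc⟩, -, ⟨uc2, huc2⟩, -, ⟨us, hus⟩, ⟨us2, hus2⟩⟩ := hINV _ ha
  have hc : ∀ f, (uc : E →L[ℂ] E) f = f + (r : ℂ) • Z f := by
    intro f; rw [huc, neg_smul, sub_neg_eq_add]; rfl
  have hs : ∀ f, (us : E →L[ℂ] E) f = Z f + (r : ℂ) • f := by
    intro f; rw [hus, neg_smul, sub_neg_eq_add]; rfl
  have hc2 : ∀ f, (uc2 : E →L[ℂ] E) f = f + (r : ℂ) • Z2 f := by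
    intro f; rw [huc2, neg_smul, sub_neg_eq_add]; rfl
  have hcs : (uc : E →L[ℂ] E) * us = us * uc := by
    ext1 f
    show (uc : E →L[ℂ] E) ((us : E →L[ℂ] E) f) = (us : E →L[ℂ] E) ((uc : E →L[ℂ] E) f)
    rw [hc, hs, hc, hs]
    simp only [map_add, map_smul]
    module
  have hcsU : uc * us = us * uc := Units.ext hcs
  set uA : (E →L[ℂ] E)ˣ := us * uc⁻¹ with huA
  have hcA : uc * uA = us := by
    rw [huA, ← mul_assoc, hcsU, mul_assoc, mul_inv_cancel, mul_one]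
  have hAc : uA * uc = us := by rw [huA, mul_assoc, inv_mul_cancel, mul_one]
  have hcAf : ∀ f, (uc : E →L[ℂ] E) ((uA : E →L[ℂ] E) f) = (us : E →L[ℂ] E) f := by
    intro f
    rw [← hcA]; rfl
  have hcomm : Commute uA uc := by
    show uA * uc = uc * uA
    rw [hcA, hAc]
  set g : ℤ → E := fun n => ((uA ^ n : (E →L[ℂ] E)ˣ) : E →L[ℂ] E) (h + (r : ℂ) • Z h) with hg
  have hg1 : ∀ n, g (n + 1) = (uA : E →L[ℂ] E) (g n) := by
    intro n
    simp only [hg]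
    rw [add_comm, zpow_one_add]
    rfl
  have hgc : ∀ n, (uc : E →L[ℂ] E) (g (n + 1)) = (us : E →L[ℂ] E) (g n) := by
    intro n
    rw [hg1, hcAf]
  have hg0 : g 0 = h + (r : ℂ) • Z h := by
    simp only [hg, zpow_zero]
    rfl
  have hZ2 : ∀ y, Z2 y = Z y - Q y := by
    intro y
    have : Q y = Z y - Z2 y := rfl
    rw [this]; abel
  -- the vectors `h_n`
  set hh : ℕ → E := fun n => ((uA ^ n : (E →L[ℂ] E)ˣ) : E →L[ℂ] E) h with hhh
  have hh1 : ∀ n, (uc : E →L[ℂ] E) (hh (n + 1)) = (us : E →L[ℂ] E) (hh n) := by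
    intro n
    simp only [hhh]
    rw [pow_succ']
    show (uc : E →L[ℂ] E) ((uA : E →L[ℂ] E) (((uA ^ n : (E →L[ℂ] E)ˣ) : E →L[ℂ] E) h)) = _
    rw [hcAf]
  have hgh : ∀ n : ℕ, g n = (uc : E →L[ℂ] E) (hh n) := by
    intro n
    simp only [hg, hhh, zpow_natCast]
    rw [← hc]
    have e1 : uA ^ n * uc = uc * uA ^ n := (hcomm.pow_left n).eq
    have e2 := congrArg (fun A : (E →L[ℂ] E)ˣ => (A : E →L[ℂ] E) h) e1
    exact e2
  have hP' : ∀ n : ℕ, (1 - (r : ℂ) ^ 2) • Q (hh n) = (2 / (4 * (n : ℂ) + 3)) •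
      ((Z (hh n) + (r : ℂ) • hh n) +
        (r : ℂ) • (Z (Z (hh n) + (r : ℂ) • hh n) - Q (Z (hh n) + (r : ℂ) • hh n))) := by
    intro n
    induction n with
    | zero =>
      have e0 : hh 0 = h := by simp only [hhh, pow_zero]; rfl
      rw [e0]
      have e1 : ((1 - r ^ 2 : ℝ) : ℂ) = 1 - (r : ℂ) ^ 2 := by push_cast; ring
      rw [e1] at hP
      rw [hP]
      have e2 : (2 / (4 * ((0 : ℕ) : ℂ) + 3)) = (2 / 3 : ℂ) := by norm_num
      rw [e2]
      congr 1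
      show (Z h + (r : ℂ) • h) + (r : ℂ) • Z2 (Z h + (r : ℂ) • h) = _
      rw [hZ2]
    | succ n ih =>
      have hn3 : (4 * (n : ℂ) + 3) ≠ 0 := by
        intro h
        have : (4 * n + 3 : ℕ) = 0 := by exact_mod_cast h
        omega
      have hn7 : (4 * (n : ℂ) + 7) ≠ 0 := by
        intro h
        have : (4 * n + 7 : ℕ) = 0 := by exact_mod_cast h
        omega
      have hn7' : (4 * ((n + 1 : ℕ) : ℂ) + 3) = 4 * (n : ℂ) + 7 := by push_cast; ring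
      have e7 : 1 + 2 * (2 / (4 * (n : ℂ) + 3)) = (4 * (n : ℂ) + 7) / (4 * (n : ℂ) + 3) := by
        field_simp; ring
      have key := alg_step (Z : E →ₗ[ℂ] E) (Q : E →ₗ[ℂ] E) (fun y => pp hOPA' y) (r : ℂ)
        (2 / (4 * (n : ℂ) + 3)) (2 / (4 * ((n + 1 : ℕ) : ℂ) + 3)) (by
          rw [e7, hn7']; field_simp) (by
          rw [e7]; exact div_ne_zero hn7 hn3) (hh n) (hh (n + 1)) ih (by
          have := hh1 n
          rw [hc, hs] at this
          exact this) _ rfl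
      have key2 := ker_zero hOM hOPC r hr0 hr1 _ key
      exact sub_eq_zero.1 key2
  have hpos : ∀ n : ℕ, (bt n : ℂ) • (g ((n : ℤ) + 1) + (r : ℂ) • Z2 (g ((n : ℤ) + 1))) =
      Z2 (g n) + (r : ℂ) • g n := by
    intro n
    have e1 : g ((n : ℤ) + 1) = (us : E →L[ℂ] E) (hh n) := by
      have := hgh (n + 1)
      push_cast at this
      rw [this, hh1]
    rw [e1, hgh n, hs, hc]
    have e2 := hP' n
    have e3 : (bt n : ℂ) = 1 - 2 / (4 * (n : ℂ) + 3) := by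
      unfold bt
      have hn3 : (4 * (n : ℂ) + 3) ≠ 0 := by
        intro h
        have : (4 * n + 3 : ℕ) = 0 := by exact_mod_cast h
        omega
      push_cast
      field_simp
      ring
    rw [e3, sub_smul, one_smul]
    rw [hZ2, ← e2, hZ2]
    simp only [map_add, map_smul]
    module
  have hjc : ∀ f, jj ((uc : E →L[ℂ] E) f) = Zi ((us : E →L[ℂ] E) (jj f)) := by
    intro f
    rw [hc, hs, j7, j8, j1, map_add, map_smul, Complex.conj_ofReal]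
    have : Zi (Z (jj f)) = jj f := congrArg (fun A : E →L[ℂ] E => A (jj f)) z2
    rw [this]
  have hjs : ∀ f, jj ((us : E →L[ℂ] E) f) = Zi ((uc : E →L[ℂ] E) (jj f)) := by
    intro f
    rw [hc, hs, j7, j8, j1, map_add, map_smul, Complex.conj_ofReal]
    have : Zi (Z (jj f)) = jj f := congrArg (fun A : E →L[ℂ] E => A (jj f)) z2
    rw [this]
  have hZi : ∀ f g : E, Zi f = Zi g → f = g := by
    intro f g h
    have h1 : Z (Zi f) = Z (Zi g) := by rw [h]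
    have h2 : ∀ y, Z (Zi y) = y := fun y => congrArg (fun A : E →L[ℂ] E => A y) z1
    rwa [h2, h2] at h1
  have hUinj : ∀ (u : (E →L[ℂ] E)ˣ) (f g : E), (u : E →L[ℂ] E) f = (u : E →L[ℂ] E) g → f = g := by
    intro u f g h
    have h1 : ((u⁻¹ : (E →L[ℂ] E)ˣ) : E →L[ℂ] E) ((u : E →L[ℂ] E) f) =
      ((u⁻¹ : (E →L[ℂ] E)ˣ) : E →L[ℂ] E) ((u : E →L[ℂ] E) g) := by rw [h]
    have h2 : ∀ y, ((u⁻¹ : (E →L[ℂ] E)ˣ) : E →L[ℂ] E) ((u : E →L[ℂ] E) y) = y :=
      fun y => congrArg (fun A : E →L[ℂ] E => A y) u.inv_mul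
    rwa [h2, h2] at h1
  have hjg : ∀ n : ℕ, jj (g n) = g (-(n : ℤ)) := by
    intro n
    induction n with
    | zero => simpa [hg0] using hj
    | succ n ih =>
      have e1 := congrArg jj (hgc n)
      rw [hjc, hjs, ih] at e1
      have e2 := hZi _ _ e1
      have e3 := hgc (-(n : ℤ) - 1)
      rw [sub_add_cancel] at e3
      rw [e3] at e2
      have e4 := hUinj _ _ _ e2
      have e5 : -((n + 1 : ℕ) : ℤ) = -(n : ℤ) - 1 := by push_cast; ring
      have e6 : ((n + 1 : ℕ) : ℤ) = (n : ℤ) + 1 := by push_cast; ring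
      rw [e5, e6]
      exact e4
  have hneg : ∀ n : ℕ, (bt (-(n : ℤ) - 1) : ℂ) • (g (-(n : ℤ)) + (r : ℂ) • Z2 (g (-(n : ℤ)))) =
      Z2 (g (-(n : ℤ) - 1)) + (r : ℂ) • g (-(n : ℤ) - 1) := by
    intro n
    have e1 := congrArg jj (hpos n)
    have e5 : g (-(n : ℤ) - 1) = jj (g ((n : ℤ) + 1)) := by
      have := hjg (n + 1)
      have e5 : -((n + 1 : ℕ) : ℤ) = -(n : ℤ) - 1 := by push_cast; ring
      have e6 : ((n + 1 : ℕ) : ℤ) = (n : ℤ) + 1 := by push_cast; ring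
      rw [e5, e6] at this
      exact this.symm
    rw [j8, j7, j8, j2, j7, j8, j2, hjg n, ← e5] at e1
    simp only [Complex.conj_ofReal] at e1
    have e2 := congrArg (fun y => Z2 y) e1
    simp only [map_add, map_smul] at e2
    have h2 : ∀ y, Z2 (Zs y) = y := fun y => congrArg (fun A : E →L[ℂ] E => A y) z3
    rw [h2, h2] at e2
    have e3 : (bt (-(n : ℤ) - 1) : ℂ) * (bt n : ℂ) = 1 := by
      have := bt_neg n
      rw [mul_comm] at this
      exact_mod_cast this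
    rw [← e2, smul_smul, e3, one_smul]
  refine ⟨g, hg0, ?_, ?_⟩
  · intro n
    rw [← hc, ← hs]
    exact hgc n
  · intro n
    rcases le_or_gt 0 n with h0 | h0
    · obtain ⟨m, rfl⟩ := Int.eq_ofNat_of_zero_le h0
      exact hpos m
    · have := hneg (-n - 1).toNat
      have e1 : -(((-n - 1).toNat : ℕ) : ℤ) = n + 1 := by omega
      rw [e1, add_sub_cancel_right] at this
      exact this

/-- the Gram matrix of the sequence -/
theorem gram (hOPA : S_OPA) (hINV : S_INV) (hr0 : 0 ≤ r) (hr1 : r < 1) (g : ℤ → E)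
    (h1 : ∀ n, g (n + 1) + (r : ℂ) • Z (g (n + 1)) = Z (g n) + (r : ℂ) • g n)
    (h2 : ∀ n, (bt n : ℂ) • (g (n + 1) + (r : ℂ) • Z2 (g (n + 1))) = Z2 (g n) + (r : ℂ) • g n)
    (n m : ℤ) : (bt n : ℂ) * ⟪g (n + 1), g (m + 1)⟫_ℂ = ⟪g n, g m⟫_ℂ := by
  obtain ⟨⟨z1, z2, z3, z4⟩, ⟨a1, a2⟩, -, -⟩ := hOPA
  have ha : ‖(-(r : ℂ))‖ < 1 := by
    rw [norm_neg, Complex.norm_real, Real.norm_of_nonneg hr0]; exact hr1
  obtain ⟨⟨uc, huc⟩, -, ⟨uc2, huc2⟩, -, -, -⟩ := hINV _ ha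
  have hc : ∀ f, (uc : E →L[ℂ] E) f = f + (r : ℂ) • Z f := by
    intro f; rw [huc, neg_smul, sub_neg_eq_add]; rfl
  have hc2 : ∀ f, (uc2 : E →L[ℂ] E) f = f + (r : ℂ) • Z2 f := by
    intro f; rw [huc2, neg_smul, sub_neg_eq_add]; rfl
  have hUinj : ∀ (u : (E →L[ℂ] E)ˣ) (f g : E), (u : E →L[ℂ] E) f = (u : E →L[ℂ] E) g → f = g := by
    intro u f g h
    have h1 : ((u⁻¹ : (E →L[ℂ] E)ˣ) : E →L[ℂ] E) ((u : E →L[ℂ] E) f) =
      ((u⁻¹ : (E →L[ℂ] E)ˣ) : E →L[ℂ] E) ((u : E →L[ℂ] E) g) := by rw [h]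
    have h2 : ∀ y, ((u⁻¹ : (E →L[ℂ] E)ˣ) : E →L[ℂ] E) ((u : E →L[ℂ] E) y) = y :=
      fun y => congrArg (fun A : E →L[ℂ] E => A y) u.inv_mul
    rwa [h2, h2] at h1
  have hUsur : ∀ (u : (E →L[ℂ] E)ˣ) (f : E), ∃ w, f = (u : E →L[ℂ] E) w := by
    intro u f
    exact ⟨((u⁻¹ : (E →L[ℂ] E)ˣ) : E →L[ℂ] E) f,
      (congrArg (fun A : E →L[ℂ] E => A f) u.mul_inv).symm⟩
  obtain ⟨w, hw⟩ := hUsur uc2 (g n)
  obtain ⟨w', hw'⟩ := hUsur uc (g m)
  have e1 : (bt n : ℂ) • g (n + 1) = Z2 w + (r : ℂ) • w := by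
    apply hUinj uc2
    rw [map_smul, hc2, hc2, h2 n, hw, hc2]
    simp only [map_add, map_smul]
    module
  have e2 : g (m + 1) = Z w' + (r : ℂ) • w' := by
    apply hUinj uc
    rw [hc, hc, h1 m, hw', hc]
    simp only [map_add, map_smul]
    module
  have e3 : (bt n : ℂ) * ⟪g (n + 1), g (m + 1)⟫_ℂ = ⟪(bt n : ℂ) • g (n + 1), g (m + 1)⟫_ℂ := by
    rw [inner_smul_left, Complex.conj_ofReal]
  have aZ : ∀ x y : E, ⟪x, Z y⟫_ℂ = ⟪Zs x, y⟫_ℂ := by
    intro x y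
    rw [← a1, ContinuousLinearMap.adjoint_inner_left]
  have h4 : ∀ y, Zs (Z2 y) = y := fun y => congrArg (fun A : E →L[ℂ] E => A y) z4
  rw [e3, e1, e2, hw, hw', hc, hc2]
  simp only [inner_add_left, inner_add_right, inner_smul_left, inner_smul_right,
    Complex.conj_ofReal, aZ, map_add, map_smul, h4]
  ring

/-- the norms -/
theorem norms (g : ℤ → E) (hg : ∀ n, (bt n : ℂ) * ⟪g (n + 1), g (n + 1)⟫_ℂ = ⟪g n, g n⟫_ℂ) (n : ℤ) :
    ‖g n‖ ^ 2 = om n * ‖g 0‖ ^ 2 := by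
  have h1 : ∀ n, bt n * ‖g (n + 1)‖ ^ 2 = ‖g n‖ ^ 2 := by
    intro n
    have := hg n
    rw [inner_self_eq_norm_sq_to_K, inner_self_eq_norm_sq_to_K] at this
    apply Complex.ofReal_injective
    push_cast
    exact this
  induction n using Int.induction_on with
  | zero => rw [om_zero, one_mul]
  | succ n ih =>
    have h2 := h1 n
    have h3 := om_bt n
    rw [ih, ← h3, mul_assoc] at h2
    exact mul_left_cancel₀ (bt_ne n) h2
  | pred n ih =>
    have h2 := h1 (-(n : ℤ) - 1)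
    have h3 := om_bt (-(n : ℤ) - 1)
    rw [sub_add_cancel] at h2 h3
    rw [← h2, ih, ← h3]
    ring

end

theorem t_REC (hOM : S_OM) (hOPA : S_OPA) (hOPC : S_OPC) (hOPJ : S_OPJ) (hINV : S_INV) :
    S_REC := by
  intro r h hr0 hr1 hP hj
  obtain ⟨g, g0, h1, h2⟩ := seq hOM hOPA hOPC hOPJ hINV h hr0 hr1 hP hj
  have hG := gram hOPA hINV hr0 hr1 g h1 h2
  have hN := norms g fun n => hG n n
  have hext := hOPC.2.2.2.2.2.2.2.2.2.2.2.2.2.1
  have hO : ∀ n m, n ≠ m → ⟪g n, g m⟫_ℂ = 0 := by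
    intro n m hnm
    have e1 := hG (n - 1) (m - 1)
    have e2 := hG (m - 1) (n - 1)
    rw [sub_add_cancel, sub_add_cancel] at e1 e2
    have e3 := congrArg conj e2
    rw [map_mul, Complex.conj_ofReal, inner_conj_symm, inner_conj_symm, ← e1] at e3
    have e4 : ((bt (m - 1) : ℂ) - bt (n - 1)) * ⟪g n, g m⟫_ℂ = 0 := by linear_combination e3
    rcases mul_eq_zero.1 e4 with h | h
    · exfalso
      apply hnm
      have h3 : bt (m - 1) = bt (n - 1) := by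
        have := sub_eq_zero.1 h
        exact_mod_cast this
      have := bt_inj h3
      omega
    · exact h
  obtain ⟨-, -, ⟨b1, -, b3, -⟩, -⟩ := hOPA
  have hVV : ∃ V : E →L[ℂ] E, (∀ n, V (eb n) = g n) ∧ ∀ f, ‖V f‖ = ‖g 0‖ * ‖f‖ := by
    by_cases hz : g 0 = 0
    · refine ⟨0, fun n => ?_, fun f => ?_⟩
      · have := hN n
        rw [hz, norm_zero] at this
        have h3 : ‖g n‖ ^ 2 = 0 := by rw [this]; ring
        have h4 : g n = 0 := norm_eq_zero.1 (pow_eq_zero_iff (two_ne_zero) |>.1 h3)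
        rw [h4]; rfl
      · rw [hz, norm_zero, zero_mul]
        exact norm_zero
    · have hg0 : 0 < ‖g 0‖ := norm_pos_iff.2 hz
      have hso : ∀ n, 0 < Real.sqrt (om n) := fun n => Real.sqrt_pos.2 (om_pos n)
      set v : ℤ → E := fun n => (((Real.sqrt (om n) * ‖g 0‖)⁻¹ : ℝ) : ℂ) • g n with hv
      have hvn : ∀ n, ‖v n‖ = 1 := by
        intro n
        have h3 : ‖g n‖ = Real.sqrt (om n) * ‖g 0‖ := by
          have h4 : ‖g n‖ ^ 2 = (Real.sqrt (om n) * ‖g 0‖) ^ 2 := by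
            rw [mul_pow, Real.sq_sqrt (om_pos n).le, hN n]
          exact (sq_eq_sq₀ (norm_nonneg _) (mul_nonneg (Real.sqrt_nonneg _) (norm_nonneg _))).1 h4
        have h5 : 0 < Real.sqrt (om n) * ‖g 0‖ := mul_pos (hso n) hg0
        rw [hv]
        simp only
        rw [norm_smul, Complex.norm_real, Real.norm_of_nonneg (inv_pos.2 h5).le, h3]
        exact inv_mul_cancel₀ h5.ne'
      have hvo : Orthonormal ℂ v := by
        refine ⟨hvn, fun n m hnm => ?_⟩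
        rw [hv]
        simp only
        rw [inner_smul_left, inner_smul_right, hO n m hnm]
        ring
      set L := hvo.orthogonalFamily.linearIsometry with hL
      have hLs : ∀ (n : ℤ) (c : ℂ), L (lp.single 2 n c) = c • v n := by
        intro n c
        rw [hL, OrthogonalFamily.linearIsometry_apply_single]
        simp [LinearIsometry.toSpanSingleton_apply]
      refine ⟨((‖g 0‖ : ℝ) : ℂ) • L.toContinuousLinearMap, fun n => ?_, fun f => ?_⟩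
      · show ((‖g 0‖ : ℝ) : ℂ) • L (lp.single 2 n ((Real.sqrt (om n) : ℝ) : ℂ)) = g n
        rw [hLs, hv]
        simp only
        rw [smul_smul, smul_smul]
        have : ((‖g 0‖ : ℝ) : ℂ) * (((Real.sqrt (om n) : ℝ) : ℂ) *
            (((Real.sqrt (om n) * ‖g 0‖)⁻¹ : ℝ) : ℂ)) = 1 := by
          have h5 := (hso n).ne'
          have h6 := hg0.ne'
          have : ‖g 0‖ * (Real.sqrt (om n) * (Real.sqrt (om n) * ‖g 0‖)⁻¹) = 1 := by
            field_simp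
          exact_mod_cast this
        rw [mul_assoc, this, one_smul]
      · show ‖((‖g 0‖ : ℝ) : ℂ) • L f‖ = _
        rw [norm_smul, Complex.norm_real, norm_norm, L.norm_map]
  obtain ⟨V, hV1, hV2⟩ := hVV
  refine ⟨V, ?_, ?_, ?_, ?_⟩
  · rw [hV1, g0]
  · apply hext
    intro n
    show V (Z (eb n)) + (r : ℂ) • Z (V (Z (eb n))) = Z (V (eb n)) + (r : ℂ) • V (eb n)
    rw [b1, hV1, hV1]
    exact h1 n
  · apply hext
    intro n
    show V (Z2 (eb n)) + (r : ℂ) • Z2 (V (Z2 (eb n))) = Z2 (V (eb n)) + (r : ℂ) • V (eb n)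
    rw [b3, map_smul, hV1, hV1, map_smul]
    have e1 : ((4 * (n : ℂ) + 1) / (4 * (n : ℂ) + 3)) = (bt n : ℂ) := by
      unfold bt; push_cast; rfl
    rw [e1, ← h2 n]
    module
  · intro f
    rw [hV2, g0]

end Pool.Agent.W347.WH
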