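import Pool.Agent.W680.WH.Stm

/-!
# Project WHH (helper680), part REC: the recursion (helper347)
-/

set_option autoImplicit false

open scoped ComplexConjugate InnerProductSpace
open ContinuousLinearMap Filter

namespace Pool.Agent.W347.WH

open Pool.Agent.W680.WH

section alg

variable {M : Type} [AddCommGroup M] [Module ℂ M]

/-- the algebraic step -/
theorem alg_step (Z Q : M →ₗ[ℂ] M) (hZQ : ∀ y, Z (Q y) = Q (Z y) + (2 : ℂ) • Q (Q y))
    (r q q1 : ℂ) (hq : q1 * (1 + 2 * q) = q) (hq0 : 1 + 2 * q ≠ 0) (h h1 : M)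
    (hP : (1 - r ^ 2) • Q h = q • ((Z h + r • h) + r • (Z (Z h + r • h) - Q (Z h + r • h))))
    (hc : h1 + r • Z h1 = Z h + r • h) (e : M)
    (he : e = (1 - r ^ 2) • Q h1 -
      q1 • ((Z h1 + r • h1) + r • (Z (Z h1 + r • h1) - Q (Z h1 + r • h1)))) :
    e + r • Z e - (2 * r) • Q e = 0 := by
  set x := Z h + r • h with hx
  -- `K (Q h1) = Q x`
  have k1 : Q h1 + r • Z (Q h1) - (2 * r) • Q (Q h1) = Q x := by
    rw [← hc]
    simp only [map_add, map_smul, map_sub, hZQ]
    module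
  -- `K (c2 (s h1)) = c2 (s x) - 2 r Q (s x)`
  have k2 : ((Z h1 + r • h1) + r • (Z (Z h1 + r • h1) - Q (Z h1 + r • h1))) +
      r • Z ((Z h1 + r • h1) + r • (Z (Z h1 + r • h1) - Q (Z h1 + r • h1))) -
      (2 * r) • Q ((Z h1 + r • h1) + r • (Z (Z h1 + r • h1) - Q (Z h1 + r • h1))) =
      ((Z x + r • x) + r • (Z (Z x + r • x) - Q (Z x + r • x))) - (2 * r) • Q (Z x + r • x) := by
    rw [← hc]
    simp only [map_add, map_smul, map_sub, hZQ]
    module
  have k3 : (1 - r ^ 2) • Q x = Q (x + r • Z x) - r • Q (Z x + r • x) := by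
    simp only [map_add, map_smul, map_sub]
    module
  have k4 : (1 - r ^ 2) • Q x =
      q • (((Z x + r • x) + r • (Z (Z x + r • x) - Q (Z x + r • x))) - (2 : ℂ) • Q (x + r • Z x)) := by
    have e1 : (1 - r ^ 2) • Q x = (Z ((1 - r ^ 2) • Q h) + r • ((1 - r ^ 2) • Q h)) -
        (2 : ℂ) • Q ((1 - r ^ 2) • Q h) := by
      rw [hx]
      simp only [map_add, map_smul, map_sub, hZQ]
      module
    rw [e1, hP]
    simp only [map_add, map_smul, map_sub, hZQ]
    module
  have k5 : e + r • Z e - (2 * r) • Q e = (1 - r ^ 2) • Q x -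
      q1 • (((Z x + r • x) + r • (Z (Z x + r • x) - Q (Z x + r • x))) -
        (2 * r) • Q (Z x + r • x)) := by
    rw [← k1, ← k2, he]
    simp only [map_add, map_smul, map_sub]
    module
  have k6 : (1 + 2 * q) • (e + r • Z e - (2 * r) • Q e) = 0 := by
    rw [k5]
    generalize (Z x + r • x) + r • (Z (Z x + r • x) - Q (Z x + r • x)) = a3 at *
    generalize Q (Z x + r • x) = a2 at *
    generalize Q (x + r • Z x) = a1 at *
    generalize (1 - r ^ 2) • Q x = w at *
    have e1 : (1 + 2 * q) • (w - q1 • (a3 - (2 * r) • a2)) =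
        w + (2 * q) • w - (q1 * (1 + 2 * q)) • (a3 - (2 * r) • a2) := by module
    have e2 : w + (2 * q) • w = q • (a3 - (2 : ℂ) • a1) + (2 * q) • (a1 - r • a2) := by
      rw [← k4, ← k3]
    rw [e1, hq, e2]
    module
  exact (smul_eq_zero.1 k6).resolve_left hq0

end alg

/-- the kernel of `1 + r (2 Z2 - Z)` -/
theorem ker_zero (hOM : S_OM) (hOPC : S_OPC) (r : ℝ) (hr0 : 0 ≤ r) (hr1 : r < 1) (e : E)
    (he : e + (r : ℂ) • Z e - (2 * (r : ℂ)) • Q e = 0) : e = 0 := by
  obtain ⟨-, c2, -, c4, c5, c6, -, c8, c9, -⟩ := hOPC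
  have hneg : ∀ f g (n : ℤ), co (f - g) n = co f n - co g n := by
    intro f g n
    have h1 := c5 f ((-1 : ℂ) • g) n
    rw [c6] at h1
    have h2 : f - g = f + (-1 : ℂ) • g := by module
    rw [h2, h1]
    ring
  have hzero : ∀ n : ℤ, co (0 : E) n = 0 := by
    intro n
    have := c6 0 0 n
    rw [zero_smul, zero_mul] at this
    exact this
  have hrec : ∀ n : ℤ, co e n = -((r : ℂ) * (((4 * (n : ℂ) - 5) / (4 * (n : ℂ) - 1)) * co e (n - 1))) := by
    intro n
    have h1 : co (e + (r : ℂ) • Z e - (2 * (r : ℂ)) • Q e) n = co (0 : E) n := by rw [he]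
    have hQ : Q e = Z e - Z2 e := rfl
    rw [hneg, c5, c6, c6, hQ, hneg, c2, c4, hzero] at h1
    have h3 : (4 * (n : ℂ) - 1) ≠ 0 := by
      intro h
      have h4 : (4 * n - 1 : ℤ) = 0 := by exact_mod_cast h
      omega
    have h4 : (4 * (n : ℂ) - 5) / (4 * (n : ℂ) - 1) =
        2 * ((4 * (n : ℂ) - 3) / (4 * (n : ℂ) - 1)) - 1 := by
      field_simp
      ring
    rw [h4]
    linear_combination h1
  rcases eq_or_lt_of_le hr0 with h0 | hrpos
  · apply c9
    intro n
    rw [hrec n, ← h0, hzero]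
    simp
  -- the coefficients of the recursion
  have hnorm : ∀ n : ℤ, ‖co e n‖ = r * (|(4 * (n : ℝ) - 5) / (4 * (n : ℝ) - 1)| * ‖co e (n - 1)‖) := by
    intro n
    rw [hrec n, norm_neg, norm_mul, norm_mul, Complex.norm_real, Real.norm_of_nonneg hr0]
    congr 2
    have : (4 * (n : ℂ) - 5) / (4 * (n : ℂ) - 1) = (((4 * (n : ℝ) - 5) / (4 * (n : ℝ) - 1) : ℝ) : ℂ) := by
      push_cast; rfl
    rw [this, Complex.norm_real]
    rfl
  obtain ⟨M, hM⟩ := exists_nat_ge (1 / (1 - r))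
  have hMr : 1 ≤ (M : ℝ) * (1 - r) := by
    rw [div_le_iff₀ (by linarith)] at hM
    exact hM
  have hmono : ∀ n : ℤ, n ≤ -(M : ℤ) → ‖co e n‖ ≤ ‖co e (n - 1)‖ := by
    intro n hn
    rw [hnorm n]
    have hn' : (n : ℝ) ≤ -(M : ℝ) := by exact_mod_cast hn
    have hM0 : (0 : ℝ) ≤ M := Nat.cast_nonneg M
    have h1 : |(4 * (n : ℝ) - 5) / (4 * (n : ℝ) - 1)| = (5 - 4 * (n : ℝ)) / (1 - 4 * (n : ℝ)) := by
      rw [abs_div, abs_of_neg (by linarith), abs_of_neg (by linarith)]
      congr 1 <;> ring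
    rw [h1, ← mul_assoc]
    have h2 : r * ((5 - 4 * (n : ℝ)) / (1 - 4 * (n : ℝ))) ≤ 1 := by
      rw [mul_div_assoc', div_le_one (by linarith)]
      nlinarith
    exact mul_le_of_le_one_left (norm_nonneg _) h2
  have hlow : ∀ m : ℤ, m ≤ -(M : ℤ) → co e m = 0 := by
    intro m hm
    by_contra hne
    have h1 : ∀ k : ℕ, ‖co e m‖ ≤ ‖co e (m - k)‖ := by
      intro k
      induction k with
      | zero => simp
      | succ k ih =>
        have := hmono (m - k) (by omega)
        have e1 : m - (k : ℤ) - 1 = m - ((k + 1 : ℕ) : ℤ) := by push_cast; ring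
        rw [e1] at this
        exact ih.trans this
    have h2 : Summable fun k : ℕ => om (m - k) * ‖co e (m - k)‖ ^ 2 :=
      (c8 e).comp_injective (i := fun k : ℕ => m - (k : ℤ)) (fun a b h => by
        simp only at h; omega)
    have h3 := h2.tendsto_atTop_zero
    have h4 : 0 < ‖co e m‖ ^ 2 := by positivity
    have h5 := (h3.eventually (gt_mem_nhds h4)).exists
    obtain ⟨k, hk⟩ := h5
    have h6 := hOM.1 (m - k)
    have h7 := pow_le_pow_left₀ (norm_nonneg _) (h1 k) 2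
    nlinarith [sq_nonneg ‖co e (m - k)‖]
  apply c9
  intro n
  rw [hzero]
  have hup : ∀ k : ℕ, co e (-(M : ℤ) + k) = 0 := by
    intro k
    induction k with
    | zero => simpa using hlow (-(M : ℤ)) le_rfl
    | succ k ih =>
      rw [hrec]
      have e1 : -(M : ℤ) + ((k + 1 : ℕ) : ℤ) - 1 = -(M : ℤ) + k := by push_cast; ring
      rw [e1, ih]
      simp
  rcases le_total n (-(M : ℤ)) with h | h
  · exact hlow n h
  · have := hup (n + M).toNat
    have e1 : -(M : ℤ) + ((n + M).toNat : ℤ) = n := by omega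
    rw [e1] at this
    exact this

end Pool.Agent.W347.WH
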